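import Mathlib
import Pool.Agent.Helper639.RO.All

set_option autoImplicit false

namespace Pool.Agent.Results.MP_bcf00e_al.AllRightOrderable

theorem ro_of_rel {G : Type} [Group G] (r : G → G → Prop) (h : IsStrictTotalOrder G r)
    (hm : ∀ a b c : G, r a b → r (a * c) (b * c)) : Pool.Agent.Helper639.RO.RO G := by
  have := h
  refine ⟨{x | x = 1 ∨ r 1 x}, ?_, ?_, ?_⟩
  · rintro x (rfl | hx) y (rfl | hy)
    · left; simp
    · right; simpa using hy
    · right; simpa using hx
    · right
      have h1 := hm 1 x y hx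
      rw [one_mul] at h1
      exact Trans.trans hy h1
  · intro x
    rcases trichotomous_of r 1 x with h1 | h1 | h1
    · exact Or.inl (Or.inr h1)
    · exact Or.inl (Or.inl h1.symm)
    · right; right
      have h2 := hm x 1 x⁻¹ h1
      rwa [mul_inv_cancel, one_mul] at h2
  · rintro x (rfl | hx) hx'
    · rfl
    · rcases hx' with h1 | h1
      · exact inv_eq_one.1 h1
      · exfalso
        have h2 := hm 1 x⁻¹ x h1
        rw [one_mul, inv_mul_cancel] at h2
        exact irrefl_of r 1 (Trans.trans hx h2)

/-- In a right-orderable group the boundedly Engel elements form a subgroup. Moreover, for all `n` and `d` there is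
a bound `c` such that in every right-orderable group any `d` elements `a i` with `[x, a i, ..., a i] = 1`
(`n` copies) for all `x` generate a nilpotent subgroup of class at most `c`. -/
theorem result :
    (∀ (G : Type) [Group G] (r : G → G → Prop), IsStrictTotalOrder G r →
      (∀ a b c : G, r a b → r (a * c) (b * c)) →
      ∃ H : Subgroup G, ∀ g : G,
        g ∈ H ↔ ∃ n : ℕ, ∀ x : G, (fun y : G => y⁻¹ * g⁻¹ * y * g)^[n] x = 1) ∧
    (∀ n d : ℕ, ∃ c : ℕ, ∀ (G : Type) [Group G] (r : G → G → Prop), IsStrictTotalOrder G r →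
      (∀ a b c : G, r a b → r (a * c) (b * c)) →
      ∀ a : Fin d → G, (∀ (i : Fin d) (x : G), (fun y : G => y⁻¹ * (a i)⁻¹ * y * a i)^[n] x = 1) →
      (Subgroup.closure (Set.range a)).lowerCentralSeries c = ⊥) := by
  refine ⟨fun G _ r h hm => Pool.Agent.Helper639.RO.main_ro G (ro_of_rel r h hm), fun n d => ?_⟩
  obtain ⟨c, hc⟩ := Pool.Agent.Helper639.RO.class_bound_sub Pool.Agent.Helper639.RO.stepCone
    (n + 1) d (by omega)
  refine ⟨c, fun G _ r h hm a ha => hc G a (ro_of_rel r h hm) fun i x => ?_⟩
  exact Pool.Agent.Helper28.BO.iter_add (a i) n (n + 1) (by omega) x (ha i x)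

end Pool.Agent.Results.MP_bcf00e_al.AllRightOrderable
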